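import Pool.Agent.H.MP_ad013a_pr.h63s.Q12.C0

namespace Pool.Agent.ad013a.AM12

theorem leaf_ok (i : Nat) : PrL chk (leaf i) := by
 unfold leaf
 exact
 (brec_all (PrL chk)
 (brec_all (PrL chk)
  (brec_all (PrL chk)
   p0
   p1)
  p2)
 (brec_all (PrL chk)
  (brec_all (PrL chk)
   p3
   p4)
  p5))

theorem all_ok (i : Nat) : chkF false 10000 131072 51605 5970 6152 g (g i) = true := leaf_ok i i

theorem start_ok : fhx (g 0) = 0 ∧ flx (g 0) = 0 ∧ fnx (g 0) = 0 ∧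
    fhy (g 0) = 0 ∧ fly (g 0) = 0 ∧ fny (g 0) = 0 := by decide +kernel

end Pool.Agent.ad013a.AM12
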